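import Pool.Agent.W845.DH.Stm

/-!
# A swap inside a cycle splits it
-/

set_option autoImplicit false

open Classical

namespace Pool.Agent.W589.DH.Sws

open Pool.Agent.W845.DH

theorem notSame {V : Type} [Fintype V] (τ : Equiv.Perm V) (u v : V) (huv : u ≠ v)
    (h : τ.SameCycle u v) : ¬ (τ * Equiv.swap u v).SameCycle u v := by
  intro hcon
  obtain ⟨j, hj⟩ := (Equiv.Perm.sameCycle_comm.mp hcon).exists_nat_pow_eq
  have hex : ∃ k : ℕ, 1 ≤ k ∧ (τ ^ k) u = v := by
    obtain ⟨i, hi⟩ := h.exists_nat_pow_eq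
    refine ⟨i, ?_, hi⟩
    rcases Nat.eq_zero_or_pos i with rfl | hi0
    · exact absurd (by simpa using hi) huv
    · exact hi0
  have hk := Nat.find_spec hex
  have hmin : ∀ m, m < Nat.find hex → 1 ≤ m → (τ ^ m) u ≠ v :=
    fun m hm h1 h2 => Nat.find_min hex hm ⟨h1, h2⟩
  generalize Nat.find hex = k at hk hmin
  have hA : ∀ j : ℕ, ∃ i, 1 ≤ i ∧ i ≤ k ∧ ((τ * Equiv.swap u v) ^ j) v = (τ ^ i) u := by
    intro j
    induction j with
    | zero => exact ⟨k, hk.1, le_rfl, by simpa using hk.2.symm⟩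
    | succ j ih =>
      obtain ⟨i, h1, h2, h3⟩ := ih
      rw [pow_succ', Equiv.Perm.mul_apply, h3]
      rcases Nat.lt_or_ge i k with hik | hik
      · refine ⟨i + 1, by omega, by omega, ?_⟩
        have hne1 : (τ ^ i) u ≠ u := by
          intro he
          apply hmin (k - i) (by omega) (by omega)
          have : (τ ^ k) u = (τ ^ (k - i)) ((τ ^ i) u) := by
            rw [← Equiv.Perm.mul_apply, ← pow_add]
            congr 2
            omega
          rw [he] at this
          rw [← this]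
          exact hk.2
        have hne2 : (τ ^ i) u ≠ v := hmin i hik h1
        rw [Equiv.Perm.mul_apply, Equiv.swap_apply_of_ne_of_ne hne1 hne2, pow_succ',
          Equiv.Perm.mul_apply]
      · have hik' : i = k := by omega
        refine ⟨1, le_rfl, by omega, ?_⟩
        rw [hik', hk.2, Equiv.Perm.mul_apply, Equiv.swap_apply_right]
        simp
  obtain ⟨i, h1, h2, h3⟩ := hA j
  rw [hj] at h3
  rcases Nat.lt_or_ge i k with hik | hik
  · apply hmin (k - i) (by omega) (by omega)
    have : (τ ^ k) u = (τ ^ (k - i)) ((τ ^ i) u) := by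
      rw [← Equiv.Perm.mul_apply, ← pow_add]
      congr 2
      omega
    rw [← h3] at this
    rw [← this]
    exact hk.2
  · have hik' : i = k := by omega
    rw [hik', hk.2] at h3
    exact huv h3

theorem sws (hM : S_SWM) : S_SWS := by
  intro V _ τ u v huv h
  have h0 := notSame τ u v huv h
  obtain ⟨h1, h2⟩ := hM V (τ * Equiv.swap u v) u v h0
  have he : τ * Equiv.swap u v * Equiv.swap u v = τ := by
    rw [mul_assoc, Equiv.swap_mul_self, mul_one]
  rw [he] at h1 h2
  have hb : ∀ x y, (τ * Equiv.swap u v).SameCycle x y → τ.SameCycle x y :=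
    fun x y hxy => (h1 x y).mpr (Or.inl hxy)
  refine ⟨h0, hb, fun x y hx hxy => ?_, fun x hx => ?_, h2.symm⟩
  · rcases (h1 x y).mp hxy with h3 | ⟨h3 | h3, _⟩
    · exact h3
    · exact absurd (hb _ _ h3) hx
    · exact absurd (h.trans (hb _ _ h3)) hx
  · rcases (h1 u x).mp hx with h3 | ⟨_, h3⟩
    · exact Or.inl h3
    · exact h3

end Pool.Agent.W589.DH.Sws
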